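import Pool.Agent.Q193.BH.State

set_option autoImplicit false

/-!
`B(H)`, `H` an infinite-dimensional Hilbert space, is not isomorphic to the full twisted groupoid
C*-algebra `C*(G, Σ)` of any (locally compact) Hausdorff étale groupoid `G` and any twist `Σ`.

`Twist 𝒢 S` (a twist `S = Σ` over the topological groupoid `𝒢`) and `IsSection` (the elements of
`C_c(G, Σ)`) are the definitions of `Pool.Agent.W657.TG.Gpd`; `conv`, `invol` are in
`Pool.Agent.Q193.BH.Defs`; `IsRep`, `fullNorm`, `HasDenseRange` and `IsFullAlgebra` are in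
`Pool.Agent.Q193.BH.State`.
-/

open Pool.Agent.W657.TG Pool.Agent.Q193.BH

namespace Pool.Agent.Results.MP_8a69f9_an.NotFullGroupoidAlgebra

universe u v

theorem result {H : Type v} [NormedAddCommGroup H] [InnerProductSpace ℂ H] [CompleteSpace H]
    (hH : ¬ FiniteDimensional ℂ H) {X G S : Type u} [TopologicalSpace X]
    [TopologicalSpace G] [LocallyCompactSpace G] [T2Space G]
    [TopologicalSpace S] [LocallyCompactSpace S] [T2Space S]
    (𝒢 : TopGpd X G) (h𝒢 : 𝒢.Etale) (tw : Twist 𝒢 S) :
    -- `B(H)` is not the full C*-algebra `C*(G, Σ)`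
    ¬ IsFullAlgebra tw H ∧
    -- `C_c(G, Σ)` is closed under the twisted convolution and the involution
    ∀ f g : S → ℂ, tw.IsSection f → tw.IsSection g →
      tw.IsSection (conv tw f g) ∧ tw.IsSection (invol tw f) :=
  ⟨not_full h𝒢 hH, fun _ _ hf hg => ⟨isSection_conv h𝒢 hf hg, isSection_invol tw hf⟩⟩

end Pool.Agent.Results.MP_8a69f9_an.NotFullGroupoidAlgebra
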